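import Pool.Agent.Q50.GM.Defs
import Pool.Agent.Q50.ES.PMain

/-!
# Modularity from a positive proportion of the places over a solvable tower
-/

set_option autoImplicit false
set_option maxHeartbeats 4000000
set_option synthInstance.maxHeartbeats 400000
set_option linter.unusedSectionVars false

universe u

open NumberField Matrix

namespace Pool.Agent.Q50.ES.GM

variable {K : Type u} [Field K] [TopologicalSpace K] [IsTopologicalRing K] [T1Space K]

theorem conjOn_symm {S : Set Γ} {r s : Γ → Mat K} (h : ConjOn S r s) : ConjOn S s r := by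
  obtain ⟨P, hP⟩ := h
  refine ⟨P⁻¹, fun g hg => ?_⟩
  rw [hP g hg, inv_inv]
  calc r g = (((P⁻¹ : GL (Fin 2) K) : Mat K) * (P : Mat K)) * r g *
        (((P⁻¹ : GL (Fin 2) K) : Mat K) * (P : Mat K)) := by
        rw [inv_mul_unit, one_mul, mul_one]
    _ = _ := by simp only [mul_assoc]

/-- The restriction of a representation. -/
def resRep {F F' : Fld} (r : Rep K F) (h : F ≤ F') : Rep K F' where
  toFun := r.toFun
  one := r.one
  mul g hg k hk := r.mul g (fix_le h hg) k (fix_le h hk)
  cont := r.cont.mono (fix_le h)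

/-- Two representations of `Gal(Ω/F)` which are isomorphic on `Gal(Ω/L)`, and irreducible there, differ by
a character of `Gal(L/F)`. -/
theorem twist_of_iso {F L : Fld} (hFL : FiniteGalois F L) (r s : Rep K F)
    (hspan : ∀ m, m ∈ Submodule.span K {t | ∃ x ∈ Gal L, t = r.toFun x}) (h : Iso L r s) :
    ∃ χ : Γ → K, IsCharacter F L χ ∧ ConjOn (Gal F) (fun g => χ g • s.toFun g) r.toFun := by
  classical
  obtain ⟨P, hP⟩ := h
  have hle := fix_le hFL.1
  set r' : Rep K F := r.conj P with hr'
  have hs : ∀ x ∈ Gal L, s.toFun x = r'.toFun x := hP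
  have hspan' : ∀ m, m ∈ Submodule.span K {t | ∃ h ∈ Gal L, t = r'.toFun h} :=
    Data.span_conj P hspan
  have hex : ∀ g ∈ Gal F, ∃ c : K, r'.toFun g = c • s.toFun g := by
    intro g hg
    obtain ⟨c, hc⟩ := Data.scalar_of_comm hspan' (t := r'.toFun g * s.toFun g⁻¹) (by
      rintro _ ⟨x, hx, rfl⟩
      have hx' : g⁻¹ * x * g ∈ Gal L := by
        have := conj_mem hFL (gal_inv hg) hx
        rwa [inv_inv] at this
      calc r'.toFun g * s.toFun g⁻¹ * r'.toFun x
          = r'.toFun g * (s.toFun g⁻¹ * s.toFun x) := by rw [hs x hx, mul_assoc]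
        _ = r'.toFun g * s.toFun (g⁻¹ * x * g * g⁻¹) := by
            rw [← s.map_mul (gal_inv hg) (hle hx)]
            congr 2
            group
        _ = r'.toFun g * (r'.toFun (g⁻¹ * x * g) * s.toFun g⁻¹) := by
            rw [s.map_mul (hle hx') (gal_inv hg), hs _ hx']
        _ = r'.toFun (g * (g⁻¹ * x * g)) * s.toFun g⁻¹ := by
            rw [r'.map_mul hg (hle hx'), Matrix.mul_assoc]
        _ = r'.toFun (x * g) * s.toFun g⁻¹ := by
            congr 2
            group
        _ = _ := by rw [r'.map_mul (hle hx) hg, mul_assoc])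
    refine ⟨c, ?_⟩
    calc r'.toFun g = r'.toFun g * (s.toFun g⁻¹ * s.toFun g) := by rw [(s.inv hg).2, mul_one]
      _ = c • s.toFun g := by rw [← mul_assoc, hc, smul_mul_assoc, one_mul]
  let χ : Γ → K := fun g => if hg : g ∈ Gal F then (hex g hg).choose else 0
  have hχ : ∀ g ∈ Gal F, r'.toFun g = χ g • s.toFun g := by
    intro g hg
    have := (hex g hg).choose_spec
    simp only [χ, dif_pos hg]
    exact this
  have hne : ∀ g ∈ Gal F, s.toFun g ≠ 0 := by
    intro g hg h0
    have := (s.inv hg).1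
    rw [h0, zero_mul] at this
    exact one_ne_zero this.symm
  refine ⟨χ, ⟨fun g hg k hk => ?_, fun k hk => ?_⟩, P⁻¹, fun g hg => ?_⟩
  · have h1 := hχ _ (gal_mul hg hk)
    rw [r'.map_mul hg hk, s.map_mul hg hk, hχ g hg, hχ k hk, smul_mul_assoc, mul_smul_comm,
      smul_smul, ← s.map_mul hg hk] at h1
    exact (smul_left_injective K (hne _ (gal_mul hg hk)) h1).symm
  · have h1 := hχ k (hle hk)
    rw [← hs k hk] at h1
    have h2 : (1 : K) • s.toFun k = χ k • s.toFun k := by rw [one_smul]; exact h1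
    exact (smul_left_injective K (hne _ (hle hk)) h2).symm
  · change r.toFun g = _ * (χ g • s.toFun g) * _
    rw [← hχ g hg, inv_inv]
    change r.toFun g = _ * ((P : Mat K) * r.toFun g * ((P⁻¹ : GL (Fin 2) K) : Mat K)) * _
    calc r.toFun g = (((P⁻¹ : GL (Fin 2) K) : Mat K) * (P : Mat K)) * r.toFun g *
          (((P⁻¹ : GL (Fin 2) K) : Mat K) * (P : Mat K)) := by
          rw [inv_mul_unit, one_mul, mul_one]
      _ = _ := by simp only [mul_assoc]

theorem tower_le {F L : Fld} (h : Tower F L) : F ≤ L := by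
  induction h with
  | refl => exact le_rfl
  | tail _ h ih => exact ih.trans h.2.2.1.1

theorem tower_real {F L : Fld} (h : Tower F L) (hF : TotallyReal F) : TotallyReal L := by
  induction h with
  | refl => exact hF
  | tail _ h _ => exact h.2.1

namespace Data

variable {T : GM.Data K}

/-- From an isomorphism on `Gal(Ω/L')` to a newform over `L`. -/
theorem modular_of_finite (hT : T.Facts) {F L L' : Fld} (r : Rep K F) (hr : StronglyIrreducible r)
    (hFL : F ≤ L) (hLL' : FiniteGalois L L') (f : T.Form L) (h : Iso L' r (T.gal f)) :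
    ∃ f' : T.Form L, Iso L r (T.gal f') := by
  obtain ⟨χ, hχ, h1⟩ := twist_of_iso hLL' (resRep r hFL) (T.gal f)
    (hr L' (hFL.trans hLL'.1) hLL'.2.1) h
  obtain ⟨f', h2⟩ := hT.twist L L' f χ hLL' hχ
  exact ⟨f', ConjOn.trans (conjOn_symm h1) h2⟩

/-- Descent along a tower. -/
theorem modular_of_tower (hT : T.Facts) {F₀ F L : Fld} (r : Rep K F₀)
    (hr : StronglyIrreducible r) (h : Tower F L) (f : T.Form L) (hf : Iso L r (T.gal f)) :
    F₀ ≤ F → ∃ f' : T.Form F, Iso F r (T.gal f') := by
  induction h using Relation.ReflTransGen.head_induction_on with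
  | refl => exact fun _ => ⟨f, hf⟩
  | @head F' F₁ hstep _ ih =>
    intro hF'
    have h01 : F₀ ≤ F₁ := hF'.trans hstep.2.2.1.1
    obtain ⟨f₁, P, hP⟩ := ih h01
    obtain ⟨f', hf'⟩ := hT.descent F' F₁ f₁ hstep (by
      intro g hg
      have hg0 : g ∈ Gal F₀ := fix_le hF' hg
      let u : GL (Fin 2) K := ⟨r.toFun g, r.toFun g⁻¹, (r.inv hg0).1, (r.inv hg0).2⟩
      refine ⟨P * u * P⁻¹, fun x hx => ?_⟩
      have hx' := conj_mem hstep.2.2.1 hg hx
      have hx0 : x ∈ Gal F₀ := fix_le h01 hx
      change (T.gal f₁).toFun (g * x * g⁻¹) = _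
      rw [hP _ hx', hP _ hx, r.map_mul (gal_mul hg0 hx0) (gal_inv hg0), r.map_mul hg0 hx0,
        _root_.mul_inv_rev, _root_.mul_inv_rev, inv_inv]
      simp only [Units.val_mul]
      change _ = (P : Mat K) * r.toFun g * ((P⁻¹ : GL (Fin 2) K) : Mat K) *
        ((P : Mat K) * r.toFun x * ((P⁻¹ : GL (Fin 2) K) : Mat K)) *
        ((P : Mat K) * (r.toFun g⁻¹ * ((P⁻¹ : GL (Fin 2) K) : Mat K)))
      have e := inv_mul_unit P
      calc (P : Mat K) * (r.toFun g * r.toFun x * r.toFun g⁻¹) *
            ((P⁻¹ : GL (Fin 2) K) : Mat K)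
          = (P : Mat K) * r.toFun g * 1 * (r.toFun x * 1 *
            (r.toFun g⁻¹ * ((P⁻¹ : GL (Fin 2) K) : Mat K))) := by
            simp only [mul_one, mul_assoc]
        _ = _ := by
            rw [← e]
            simp only [mul_assoc])
    exact modular_of_finite hT r hr hF' hstep.2.2.1 f'
      (ConjOn.trans ⟨P, hP⟩ (conjOn_symm hf'))

/-- **One abelian variety.** -/
theorem modular_iff (hT : T.Facts) {F : Fld} (hF : TotallyReal F) {E : Subfield K} (A : T.AV F E)
    (hA : ¬ T.CM A) : T.Modular A ↔ T.Approximated A := by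
  constructor
  · intro h
    obtain ⟨f, P, hP⟩ := (hT.modular F E A hF).1 h
    refine ⟨F, Relation.ReflTransGen.refl, f, 1, one_pos, Filter.Frequently.of_forall fun x => ?_⟩
    have h1 : T.Agree A f ∩ {w | T.norm w ≤ x} = {w | T.norm w ≤ x} := by
      refine Set.inter_eq_right.2 fun w _ => ?_
      change ((T.rep A).toFun (T.frob w)).trace = ((T.gal f).toFun (T.frob w)).trace
      rw [hP _ (hT.frob_mem F w), trace_conj]
    rw [h1, one_mul]
  · rintro ⟨L, hL, f, hf⟩
    have hFL := tower_le hL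
    have hr := hT.irreducible F E A hA
    obtain ⟨L', hLL', g, hg, htr⟩ := hT.chebotarev F L E A f hFL hf
    have hiso : Iso L' (T.rep A) (T.gal f) :=
      iso_of_trace_coset _ _ (fix_le (hFL.trans hLL'.1)) (fix_le hLL'.1)
        (hr L' (hFL.trans hLL'.1) hLL'.2.1) (fix_le hFL hg) hg htr
    obtain ⟨f', hf'⟩ := modular_of_finite hT (T.rep A) hr hFL hLL' f hiso
    exact (hT.modular F E A hF).2 (modular_of_tower hT (T.rep A) hr hL f' hf' le_rfl)

/-- **All abelian varieties.** -/
theorem all_iff (hT : T.Facts) {M₀ : Fld} (hM : TotallyReal M₀) (hG : SolvableGalois M₀) :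
    (∀ F, TotallyReal F → ∀ (E : Subfield K) (A : T.AV F E), T.Modular A) ↔
      ∀ F, TotallyReal F → M₀ ≤ F → ∀ (E : Subfield K) (A : T.AV F E),
        T.Semistable A → ¬ T.CM A → T.Approximated A := by
  constructor
  · intro h F hF _ E A _ hA
    exact (modular_iff hT hF A hA).1 (h F hF E A)
  · intro h F hF E A
    by_cases hA : T.CM A
    · exact hT.known F E A hF hA
    obtain ⟨L, hL, hML, A', hs, hc, hiso⟩ := hT.semistable F M₀ E A hF hM hG
    have hLr := tower_real hL hF
    have hA' : ¬ T.CM A' := fun h' => hA (hc h')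
    obtain ⟨f, hf⟩ := (hT.modular L E A' hLr).1
      ((modular_iff hT hLr A' hA').2 (h L hLr hML E A' hs hA'))
    exact (hT.modular F E A hF).2 (modular_of_tower hT (T.rep A) (hT.irreducible F E A hA) hL f
      (ConjOn.trans (conjOn_symm hiso) hf) le_rfl)

end Data

end Pool.Agent.Q50.ES.GM
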