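import Pool.Agent.Q50.ES.PDefs

/-!
# Modularity of abelian varieties of GL₂-type: data and known facts
-/

set_option autoImplicit false

universe u

open NumberField

namespace Pool.Agent.Q50.ES.GM


/-- `L` is a cyclic extension of prime degree of the totally real number field `F`, and totally real. -/
def CyclicStep (F L : Fld) : Prop :=
  TotallyReal F ∧ TotallyReal L ∧ FiniteGalois F L ∧
    (L.fixingSubgroup.relIndex F.fixingSubgroup).Prime

/-- There is a chain `F = F₀ ⊆ F₁ ⊆ ... ⊆ F_n = L` of totally real fields, each one cyclic of prime degree
over the preceding one. -/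
def Tower : Fld → Fld → Prop := Relation.ReflTransGen CyclicStep

variable (K : Type u) [Field K] [TopologicalSpace K]

/-- Abelian varieties of GL₂-type and Hilbert newforms; `K` is an algebraic closure of `ℚ_ℓ` for a fixed
prime `ℓ`, identified with `ℂ` as a field. `AV F E`: the abelian varieties over `F` of dimension
`[E : ℚ]` with an action of the number field `E ⊆ K` up to isogeny; `rep A`: the representation of
`Gal(Ω/F)` on `V(A) = V_ℓ(A) ⊗ K` (over `E ⊗ ℚ_ℓ`); `Semistable A`: `A` has semistable reduction at all
places of `F`; `CM A`: `A` has complex multiplication over `Ω`; `Form F`: the Hilbert newforms over `F`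
of parallel weight 2, of any level, with any central character (none if `F` is not a totally real
number field); `gal f`: the Galois representation of `f`; `Modular A`: `A` is associated to a Hilbert
newform over `F`; `place L`: the finite places of `L`; `norm w`: the number of elements of the residue
field of `w`; `frob w`: a Frobenius element of `w` in `Gal(Ω/L)`. -/
structure Data where
  /-- abelian varieties of GL₂-type -/
  AV : Fld → Subfield K → Type u
  /-- the Galois representation -/
  rep : ∀ {F E}, AV F E → Rep K F
  /-- semistable reduction -/
  Semistable : ∀ {F E}, AV F E → Prop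
  /-- potential complex multiplication -/
  CM : ∀ {F E}, AV F E → Prop
  /-- newforms -/
  Form : Fld → Type u
  /-- the Galois representation -/
  gal : ∀ {F}, Form F → Rep K F
  /-- the abelian variety is associated to a newform -/
  Modular : ∀ {F E}, AV F E → Prop
  /-- the finite places -/
  place : Fld → Type
  /-- the norm -/
  norm : ∀ {L}, place L → ℕ
  /-- a Frobenius element -/
  frob : ∀ {L}, place L → Γ

variable {K}

/-- The restriction of the representation to every open subgroup is absolutely irreducible. -/
def StronglyIrreducible {F : Fld} (r : Rep K F) : Prop :=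
  ∀ L, F ≤ L → FiniteDimensional ℚ L → ∀ t, InSpan {t | ∃ h ∈ Gal L, t = r.toFun h} t

/-- `χ` is a character of `Gal(Ω/F)` which is trivial on `Gal(Ω/L)`. -/
def IsCharacter (F L : Fld) (χ : Γ → K) : Prop :=
  (∀ g ∈ Gal F, ∀ h ∈ Gal F, χ (g * h) = χ g * χ h) ∧ ∀ h ∈ Gal L, χ h = 1

namespace Data

variable (T : Data K)

/-- The finite places of `L` whose Frobenius elements have the same trace on `V(A)` and on the
representation of `f`. -/
def Agree {F L : Fld} {E : Subfield K} (A : T.AV F E) (f : T.Form L) : Set (T.place L) :=
  {w | ((T.rep A).toFun (T.frob w)).trace = ((T.gal f).toFun (T.frob w)).trace}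

/-- For some `L` at the end of a tower over `F` there is a Hilbert newform over `L` with the same
Frobenius traces as `A` for a set of places of `L` of positive upper density. -/
def Approximated {F : Fld} {E : Subfield K} (A : T.AV F E) : Prop :=
  ∃ L, Tower F L ∧ ∃ f : T.Form L, PositiveUpperDensity T.norm (T.Agree A f)

/-- Known (Faltings): the representation of an abelian variety without complex multiplication is
irreducible on every open subgroup. -/
def Irreducible : Prop :=
  ∀ (F : Fld) (E : Subfield K) (A : T.AV F E), ¬ T.CM A → StronglyIrreducible (T.rep A)

/-- Known: twists of newforms by characters of finite order are newforms. -/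
def Twist : Prop :=
  ∀ (F L : Fld) (f : T.Form F) (χ : Γ → K), FiniteGalois F L → IsCharacter F L χ →
    ∃ f' : T.Form F, ConjOn (Gal F) (fun g => χ g • (T.gal f).toFun g) (T.gal f').toFun

/-- Known (Langlands): let `L` be a totally real cyclic extension of prime degree of the totally real
field `F`. A newform over `L` whose representation is isomorphic to its conjugates under `Gal(Ω/F)` is the
base change of a newform over `F`. -/
def CyclicDescent : Prop :=
  ∀ (F L : Fld) (f : T.Form L), CyclicStep F L →
    (∀ g ∈ Gal F, ConjOn (Gal L) (T.gal f).toFun fun h => (T.gal f).toFun (g * h * g⁻¹)) →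
    ∃ f' : T.Form F, Iso L (T.gal f') (T.gal f)

/-- Known (algebraic Chebotarev density theorem, Rajan): if the traces on the representations of `A` and
`f` agree for a set of places of `L` of positive upper density, then they agree on a coset of an open
subgroup. -/
def Chebotarev : Prop :=
  ∀ (F L : Fld) (E : Subfield K) (A : T.AV F E) (f : T.Form L), F ≤ L →
    PositiveUpperDensity T.norm (T.Agree A f) → ∃ L', FiniteGalois L L' ∧
      ∃ g ∈ Gal L, ∀ x ∈ Gal L',
        ((T.rep A).toFun (g * x)).trace = ((T.gal f).toFun (g * x)).trace

/-- Known (Grothendieck, class field theory): for every totally real Galois extension `M₀` of `ℚ` with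
solvable group, every abelian variety over the totally real field `F` becomes semistable over the field
`L ⊇ M₀` at the end of a suitable tower over `F`. -/
def SemistableReduction : Prop :=
  ∀ (F M₀ : Fld) (E : Subfield K) (A : T.AV F E), TotallyReal F → TotallyReal M₀ →
    SolvableGalois M₀ → ∃ L, Tower F L ∧ M₀ ≤ L ∧ ∃ A' : T.AV L E,
      T.Semistable A' ∧ (T.CM A' → T.CM A) ∧ Iso L (T.rep A') (T.rep A)

/-- The known facts. `known`: abelian varieties with complex multiplication are modular (Shimura,
Casselman). `modular` (Faltings, strong multiplicity one, local-global compatibility): `A` is associated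
to a newform if and only if `V(A) ≅ gal f` for some newform `f`. -/
structure Facts : Prop where
  irreducible : T.Irreducible
  twist : T.Twist
  descent : T.CyclicDescent
  chebotarev : T.Chebotarev
  semistable : T.SemistableReduction
  frob_mem : ∀ (L : Fld) (w : T.place L), T.frob w ∈ Gal L
  known : ∀ (F : Fld) (E : Subfield K) (A : T.AV F E), TotallyReal F → T.CM A → T.Modular A
  modular : ∀ (F : Fld) (E : Subfield K) (A : T.AV F E), TotallyReal F →
    (T.Modular A ↔ ∃ f : T.Form F, Iso F (T.rep A) (T.gal f))

end Data

end Pool.Agent.Q50.ES.GM
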